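import Pool.Agent.helper11.WH.Defs

/-! Module LA of project WH: at most half of the vertices have a vertex in their rectangle. -/

set_option autoImplicit false

namespace Pool.Agent.helper11.WH

open Finset

section

variable {ι : Type*} {x y : ι → ℤ} {I : Finset ι} {Q : Finset (ι × ι)}

theorem LA_alive (hQ : Sys x y I Q) {a b c d : ι} (h1 : (a, b) ∈ Q) (h2 : (c, d) ∈ Q)
    (hne : (a, b) ≠ (c, d)) (h3 : x a < x d) (h4 : x c < x b) : y b ≤ y c ∨ y d ≤ y a := by
  by_contra h
  push Not at h
  exact hne (hQ.dis _ h1 _ h2 ⟨h3, h.2, h4, h.1⟩)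

theorem LA_top (hQ : Sys x y I Q) {u r a b : ι} (h1 : (u, r) ∈ Q) (h2 : (a, b) ∈ Q)
    (h3 : x a < x r) (h4 : x r ≤ x b) (h5 : y a < y r) : y a ≤ y u := by
  by_cases he : (a, b) = (u, r)
  · simp only [Prod.mk.injEq] at he
    rw [he.1]
  · have c1 := hQ.cov _ h1
    have c2 := hQ.cov _ h2
    unfold Cov at c1 c2
    simp only at c1 c2
    have e1 := c1.1
    have e2 := c2.2.1
    rcases LA_alive hQ h2 h1 he h3 (by omega) with h | h <;> omega

/-- `r` is the lowest head above `d`. -/
def LAPhi (x y : ι → ℤ) (Q : Finset (ι × ι)) (r d : ι) : Prop :=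
  ∃ w, (r, w) ∈ Q ∧ x r < x d ∧ x d ≤ x w ∧ y d < y r ∧
    ∀ a b, (a, b) ∈ Q → x a < x d → x d ≤ x b → y d < y a → y r ≤ y a

theorem LAPhi_unique (hy : Function.Injective y) {r r' d : ι} (h : LAPhi x y Q r d)
    (h' : LAPhi x y Q r' d) : r = r' := by
  obtain ⟨w, a1, a2, a3, a4, a5⟩ := h
  obtain ⟨w', b1, b2, b3, b4, b5⟩ := h'
  have c1 := a5 r' w' b1 b2 b3 b4
  have c2 := b5 r w a1 a2 a3 a4
  exact hy (le_antisymm c1 c2)

end

theorem LA_local {ι : Type*} [Fintype ι] [DecidableEq ι] {x y : ι → ℤ} (hx : Function.Injective x)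
    (hy : Function.Injective y) {V : Finset ι} {Q : Finset (ι × ι)} (hQ : Sys x y Vᶜ Q) {r u w : ι}
    (hu : (u, r) ∈ Q) (hw : (r, w) ∈ Q) {d : ι} (hd : d ∉ V) (hR : InR x y u r w d)
    (hmin : ∀ s, s ∉ V → InR x y u r w s → x d ≤ x s) :
    LAPhi x y Q r d ∧ ∀ e, (e, d) ∈ Q → LAPhi x y Q r e ∧ e ≠ d ∧ e ∉ V := by
  obtain ⟨d1, d2, d3, d4⟩ := hR
  have cu := hQ.cov _ hu
  have cw := hQ.cov _ hw
  unfold Cov at cu cw
  simp only at cu cw
  have cu1 := cu.1
  have cu2 := cu.2.1
  have cw1 := cw.1
  have cw2 := cw.2.1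
  have memV : ∀ a b, (a, b) ∈ Q → a ∉ V ∧ b ∉ V := by
    intro a b h
    have h1 := hQ.memL _ h
    have h2 := hQ.memR _ h
    simp only [Finset.mem_compl] at h1 h2
    exact ⟨h1, h2⟩
  have claim1 : ∀ a b, (a, b) ∈ Q → x a < x d → x d ≤ x b → y d < y a → y r ≤ y a := by
    intro a b hab h1 h2 h3
    by_contra hlt
    push Not at hlt
    rcases lt_trichotomy (x a) (x r) with h | h | h
    · have := LA_top hQ hu hab h (by omega) hlt
      omega
    · have := hx h
      subst this
      omega
    · have := hmin a (memV a b hab).1 ⟨h, by omega, by omega, hlt⟩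
      omega
  refine ⟨⟨w, hw, d1, d2.le, d4, claim1⟩, ?_⟩
  intro e he
  have ce := hQ.cov _ he
  unfold Cov at ce
  simp only at ce
  have ce1 := ce.1
  have ce2 := ce.2.1
  have hxe : x r < x e := by
    rcases lt_trichotomy (x e) (x r) with h | h | h
    · have := hQ.dis _ hu _ he ⟨by simp only; omega, by simp only; omega, by simp only; omega,
        by simp only; omega⟩
      simp only [Prod.mk.injEq] at this
      rw [this.2] at d4
      omega
    · have := hx h
      subst this
      omega
    · exact h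
  refine ⟨⟨w, hw, hxe, by omega, by omega, ?_⟩, ?_, (memV e d he).1⟩
  · intro a b hab h1 h2 h3
    by_contra hlt
    push Not at hlt
    have cab := hQ.cov _ hab
    unfold Cov at cab
    simp only at cab
    have cab2 := cab.2.1
    have hbe : x e < x b := by
      rcases lt_or_eq_of_le h2 with h | h
      · exact h
      · have := hx h
        subst this
        omega
    rcases lt_trichotomy (y a) (y d) with h | h | h
    · rcases LA_alive hQ hab he (by intro h; simp only [Prod.mk.injEq] at h; rw [h.1] at h3; omega)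
        (by omega) hbe with h' | h' <;> omega
    · have := hy h
      subst this
      omega
    · rcases le_or_gt (x d) (x b) with h' | h'
      · have := claim1 a b hab (by omega) h' h
        omega
      · rcases lt_trichotomy (y b) (y r) with h'' | h'' | h''
        · have := hmin b (memV a b hab).2 ⟨by omega, by omega, by omega, h''⟩
          omega
        · have := hy h''
          subst this
          omega
        · rcases LA_alive hQ hab hw (by intro h; simp only [Prod.mk.injEq] at h; rw [h.1] at hlt; omega)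
            (by omega) (by omega) with h4 | h4 <;> omega
  · intro h
    subst h
    omega

theorem lemmaA {ι : Type*} [Fintype ι] [DecidableEq ι] {x y : ι → ℤ} (hx : Function.Injective x)
    (hy : Function.Injective y) {V : Finset ι} {Q : Finset (ι × ι)} (hQ : Sys x y Vᶜ Q)
    (X : Finset ι)
    (hX : ∀ r ∈ X, ∃ u w, (u, r) ∈ Q ∧ (r, w) ∈ Q ∧ ∃ s, s ∉ V ∧ InR x y u r w s) :
    2 * X.card ≤ (Vᶜ : Finset ι).card + (St V Q).card := by
  classical
  let A : ι → Finset ι := fun r => (Vᶜ : Finset ι).filter (fun d => LAPhi x y Q r d)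
  let B : ι → Finset ι := fun r => (St V Q).filter (fun d => LAPhi x y Q r d)
  have h2 : ∀ r ∈ X, 2 ≤ (A r).card + (B r).card := by
    intro r hr
    obtain ⟨u, w, hu, hw, s, hs1, hs2⟩ := hX r hr
    obtain ⟨d, hd, hmin⟩ := Finset.exists_min_image
      ((univ : Finset ι).filter (fun s => s ∉ V ∧ InR x y u r w s)) x ⟨s, by simp [hs1, hs2]⟩
    simp only [Finset.mem_filter, Finset.mem_univ, true_and] at hd hmin
    obtain ⟨p1, p2⟩ := LA_local hx hy hQ hu hw hd.1 hd.2 (fun s h1 h2 => hmin s ⟨h1, h2⟩)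
    have hdA : d ∈ A r := by simp [A, hd.1, p1]
    by_cases hst : d ∈ St V Q
    · have hdB : d ∈ B r := by simp [B, hst, p1]
      have c1 := Finset.card_pos.mpr ⟨d, hdA⟩
      have c2 := Finset.card_pos.mpr ⟨d, hdB⟩
      omega
    · rw [mem_St] at hst
      push Not at hst
      obtain ⟨e, he⟩ := hst hd.1
      obtain ⟨q1, q2, q3⟩ := p2 e he
      have heA : e ∈ A r := by simp [A, q3, q1]
      have := Finset.one_lt_card.mpr ⟨e, heA, d, hdA, q2⟩
      omega
  have hA : ∑ r ∈ X, (A r).card ≤ (Vᶜ : Finset ι).card := by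
    rw [← Finset.card_biUnion]
    · apply Finset.card_le_card
      intro d hd
      rw [Finset.mem_biUnion] at hd
      obtain ⟨r, _, h⟩ := hd
      exact (Finset.mem_filter.mp h).1
    · intro r _ r' _ hne
      rw [Function.onFun, Finset.disjoint_left]
      intro d h1 h2
      exact hne (LAPhi_unique hy (Finset.mem_filter.mp h1).2 (Finset.mem_filter.mp h2).2)
  have hB : ∑ r ∈ X, (B r).card ≤ (St V Q).card := by
    rw [← Finset.card_biUnion]
    · apply Finset.card_le_card
      intro d hd
      rw [Finset.mem_biUnion] at hd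
      obtain ⟨r, _, h⟩ := hd
      exact (Finset.mem_filter.mp h).1
    · intro r _ r' _ hne
      rw [Function.onFun, Finset.disjoint_left]
      intro d h1 h2
      exact hne (LAPhi_unique hy (Finset.mem_filter.mp h1).2 (Finset.mem_filter.mp h2).2)
  have hsum : ∑ r ∈ X, 2 ≤ ∑ r ∈ X, ((A r).card + (B r).card) := Finset.sum_le_sum h2
  rw [Finset.sum_add_distrib, Finset.sum_const, smul_eq_mul] at hsum
  omega

end Pool.Agent.helper11.WH
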