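import Pool.Agent.helper11.WH.Defs

/-! Modules NU (numerics) and CN (counting) of project WH. -/

set_option autoImplicit false

namespace Pool.Agent.helper11.WH

open Finset

theorem CN_numer_base : ((20 / 19 : ℝ) ^ 4 * (1 + (1000 / 1007 : ℝ) ^ 1000) ^ 2) * (1007 / 1000 : ℝ) ^ 3 <
      (20 / 19 : ℝ) * (1 + ((20 / 19 : ℝ) ^ 4 - 1) * (19 / 20) ^ 3) := by
  have h1 : (1000 / 1007 : ℝ) ^ 1000 ≤ 1 / 1060 := by
    have h2 : (1000 / 1007 : ℝ) ^ 10 ≤ 9327 / 10000 := by norm_num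
    have h3 : (9327 / 10000 : ℝ) ^ 10 ≤ 49825 / 100000 := by norm_num
    have h4 : (49825 / 100000 : ℝ) ^ 10 ≤ 1 / 1060 := by norm_num
    calc (1000 / 1007 : ℝ) ^ 1000 = (((1000 / 1007 : ℝ) ^ 10) ^ 10) ^ 10 := by
          rw [← pow_mul, ← pow_mul]
      _ ≤ ((9327 / 10000 : ℝ) ^ 10) ^ 10 := by
          apply pow_le_pow_left₀ (by positivity)
          exact pow_le_pow_left₀ (by positivity) h2 10
      _ ≤ (49825 / 100000 : ℝ) ^ 10 := by
          exact pow_le_pow_left₀ (by positivity) h3 10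
      _ ≤ 1 / 1060 := h4
  have h0 : 0 ≤ (1000 / 1007 : ℝ) ^ 1000 := by positivity
  have h5 : (1 + (1000 / 1007 : ℝ) ^ 1000) ^ 2 ≤ (1 + 1 / 1060) ^ 2 :=
    pow_le_pow_left₀ (by positivity) (by linarith) 2
  calc ((20 / 19 : ℝ) ^ 4 * (1 + (1000 / 1007 : ℝ) ^ 1000) ^ 2) * (1007 / 1000 : ℝ) ^ 3
      ≤ ((20 / 19 : ℝ) ^ 4 * (1 + 1 / 1060) ^ 2) * (1007 / 1000 : ℝ) ^ 3 := by
        gcongr
    _ < _ := by norm_num

theorem CN_numer (n : ℕ) (hn : 1 ≤ n) :
    ((20 / 19 : ℝ) ^ 4 * (1 + (1000 / 1007 : ℝ) ^ 1000) ^ 2) ^ n * (1007 / 1000 : ℝ) ^ (3 * n) <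
      ((20 / 19 : ℝ) * (1 + ((20 / 19 : ℝ) ^ 4 - 1) * (19 / 20) ^ 3)) ^ n := by
  rw [pow_mul, ← mul_pow]
  exact pow_lt_pow_left₀ CN_numer_base (by positivity) (by omega)

theorem counting {ι : Type*} [Fintype ι] [DecidableEq ι] (hn : 1 ≤ Fintype.card ι)
    (C S E : Finset ι → Finset ι) (pi : Finset ι → ℕ)
    (hS : ∀ V, (S V).card = pi V) (hE : ∀ V, (E V).card = pi V)
    (hCV : ∀ V, Disjoint (C V) V)
    (hC : ∀ V, Fintype.card ι ≤ 4 * (C V).card + 3 * V.card + 5 * pi V)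
    (hinj : ∀ V₁ V₂ F₁ F₂, F₁ ⊆ C V₁ → F₂ ⊆ C V₂ → S V₁ = S V₂ → E V₁ = E V₂ →
      V₁ ∪ F₁ = V₂ ∪ F₂ → V₁ = V₂ ∧ F₁ = F₂) :
    ∃ V, Fintype.card ι ≤ 1000 * pi V := by
  by_contra hcon
  push Not at hcon
  set n := Fintype.card ι with hnn
  set t : ℝ := (1000 / 1007 : ℝ) ^ 1000 with ht
  set th : ℝ := 20 / 19 with hth
  set a : ℝ := th ^ 4 - 1 with ha
  have ht0 : 0 < t := by positivity
  have ha0 : 0 < a := by rw [ha, hth]; norm_num
  have hY : th ^ 5 * t ≤ 1 := by
    have h1 : (8 : ℝ) ≤ (1007 / 1000 : ℝ) ^ 1000 := by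
      have := one_add_mul_le_pow (show (-2 : ℝ) ≤ 7 / 1000 by norm_num) 1000
      calc (8 : ℝ) = 1 + ((1000 : ℕ) : ℝ) * (7 / 1000) := by norm_num
        _ ≤ (1 + 7 / 1000 : ℝ) ^ 1000 := this
        _ = _ := by norm_num
    have h2 : (1007 / 1000 : ℝ) ^ 1000 * t = 1 := by
      rw [ht, ← mul_pow]
      norm_num
    have h3 : th ^ 5 ≤ 8 := by rw [hth]; norm_num
    nlinarith
  -- the big sum
  set T : ℝ := ∑ V : Finset ι, ∑ F ∈ (C V).powerset, a ^ (V.card + F.card) * (t ^ (S V).card * t ^ (E V).card)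
    with hT
  -- upper bound
  have hupper : T ≤ (th ^ 4 * (1 + t) ^ 2) ^ n := by
    have hsum : ∀ b : ℝ, ∑ W : Finset ι, b ^ W.card = (1 + b) ^ n := by
      intro b
      have := Finset.sum_pow_mul_eq_add_pow b 1 (Finset.univ : Finset ι)
      simp only [one_pow, mul_one, Finset.powerset_univ, Finset.card_univ] at this
      rw [this, add_comm]
    have e1 : (th ^ 4 * (1 + t) ^ 2) ^ n =
        ∑ p : Finset ι × (Finset ι × Finset ι), a ^ p.1.card * (t ^ p.2.1.card * t ^ p.2.2.card) := by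
      rw [Fintype.sum_prod_type]
      have : ∀ W : Finset ι, ∑ q : Finset ι × Finset ι, a ^ W.card * (t ^ q.1.card * t ^ q.2.card) =
          a ^ W.card * ((1 + t) ^ n * (1 + t) ^ n) := by
        intro W
        rw [← Finset.mul_sum, Fintype.sum_prod_type, ← hsum t, Finset.sum_mul_sum]
      simp only [this]
      rw [← Finset.sum_mul, hsum a]
      have : 1 + a = th ^ 4 := by rw [ha]; ring
      rw [this, mul_pow]
      congr 1
      rw [← pow_mul, two_mul, pow_add]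
    rw [e1, hT, Finset.sum_sigma']
    have hcard : ∀ x ∈ (Finset.univ : Finset (Finset ι)).sigma (fun V => (C V).powerset),
        (x.1 ∪ x.2).card = x.1.card + x.2.card := by
      intro x hx
      rw [Finset.mem_sigma, Finset.mem_powerset] at hx
      apply Finset.card_union_of_disjoint
      exact (Finset.disjoint_of_subset_left hx.2 (hCV x.1)).symm
    have e2 : ∑ x ∈ (Finset.univ : Finset (Finset ι)).sigma (fun V => (C V).powerset),
        a ^ (x.1.card + x.2.card) * (t ^ (S x.1).card * t ^ (E x.1).card) =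
        ∑ p ∈ ((Finset.univ : Finset (Finset ι)).sigma (fun V => (C V).powerset)).image
          (fun x => (x.1 ∪ x.2, (S x.1, E x.1))), a ^ p.1.card * (t ^ p.2.1.card * t ^ p.2.2.card) := by
      rw [Finset.sum_image]
      · apply Finset.sum_congr rfl
        intro x hx
        simp only
        rw [hcard x hx]
      · rintro ⟨V₁, F₁⟩ h₁ ⟨V₂, F₂⟩ h₂ h
        simp only [Finset.coe_sigma, Set.mem_sigma_iff, Finset.mem_coe, Finset.mem_univ,
          Finset.mem_powerset, true_and] at h₁ h₂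
        simp only [Prod.mk.injEq] at h
        obtain ⟨a1, a2⟩ := hinj V₁ V₂ F₁ F₂ h₁ h₂ h.2.1 h.2.2 h.1
        subst a1
        subst a2
        rfl
    rw [e2]
    apply Finset.sum_le_sum_of_subset_of_nonneg (Finset.subset_univ _)
    intro p _ _
    positivity
  -- lower bound
  have hlower : (th * (1 + a * (19 / 20) ^ 3)) ^ n * (1000 / 1007 : ℝ) ^ (3 * n) ≤ T := by
    have hsum : ∑ V : Finset ι, (a * (19 / 20) ^ 3) ^ V.card = (1 + a * (19 / 20) ^ 3) ^ n := by
      have := Finset.sum_pow_mul_eq_add_pow (a * (19 / 20) ^ 3) 1 (Finset.univ : Finset ι)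
      simp only [one_pow, mul_one, Finset.powerset_univ, Finset.card_univ] at this
      rw [this, add_comm]
    rw [mul_pow, ← hsum, Finset.mul_sum, Finset.sum_mul, hT]
    apply Finset.sum_le_sum
    intro V _
    have e1 : ∑ F ∈ (C V).powerset, a ^ (V.card + F.card) * (t ^ (S V).card * t ^ (E V).card) =
        a ^ V.card * th ^ (4 * (C V).card) * t ^ (2 * pi V) := by
      have := Finset.sum_pow_mul_eq_add_pow a 1 (C V)
      simp only [one_pow, mul_one] at this
      have h4 : a + 1 = th ^ 4 := by rw [ha]; ring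
      rw [h4] at this
      rw [pow_mul, ← this, hS, hE, Finset.mul_sum, Finset.sum_mul]
      apply Finset.sum_congr rfl
      intro F _
      ring
    rw [e1]
    have hth1 : 1 ≤ th := by rw [hth]; norm_num
    have h1 : th ^ n ≤ th ^ (4 * (C V).card + 3 * V.card + 5 * pi V) :=
      pow_le_pow_right₀ hth1 (hC V)
    have h2 : th ^ (5 * pi V) * t ^ pi V ≤ 1 := by
      rw [pow_mul, ← mul_pow]
      exact pow_le_one₀ (by positivity) hY
    have h3 : (1000 / 1007 : ℝ) ^ (3 * n) ≤ t ^ (3 * pi V) := by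
      rw [ht, ← pow_mul]
      apply pow_le_pow_of_le_one (by norm_num) (by norm_num)
      have := hcon V
      omega
    have h4 : th * (19 / 20 : ℝ) = 1 := by rw [hth]; norm_num
    have h5 : th ^ (3 * V.card) * ((19 / 20 : ℝ) ^ 3) ^ V.card = 1 := by
      rw [← pow_mul, ← mul_pow, h4, one_pow]
    calc th ^ n * (a * (19 / 20) ^ 3) ^ V.card * (1000 / 1007 : ℝ) ^ (3 * n)
        ≤ th ^ (4 * (C V).card + 3 * V.card + 5 * pi V) * (a * (19 / 20) ^ 3) ^ V.card *
          t ^ (3 * pi V) := by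
          gcongr
      _ = a ^ V.card * th ^ (4 * (C V).card) * t ^ (2 * pi V) *
          ((th ^ (3 * V.card) * ((19 / 20 : ℝ) ^ 3) ^ V.card) * (th ^ (5 * pi V) * t ^ pi V)) := by
          rw [mul_pow, pow_add, pow_add, show 3 * pi V = 2 * pi V + pi V by ring, pow_add t]
          ring
      _ ≤ a ^ V.card * th ^ (4 * (C V).card) * t ^ (2 * pi V) * 1 := by
          rw [h5, one_mul]
          gcongr
      _ = _ := by ring
  have hfin := CN_numer n hn
  have h6 : (1000 / 1007 : ℝ) ^ (3 * n) * (1007 / 1000 : ℝ) ^ (3 * n) = 1 := by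
    rw [← mul_pow]
    norm_num
  have h7 : (0 : ℝ) < (1007 / 1000 : ℝ) ^ (3 * n) := by positivity
  have h8 := mul_le_mul_of_nonneg_right (hlower.trans hupper) h7.le
  rw [mul_assoc, h6, mul_one] at h8
  exact absurd (lt_of_lt_of_le hfin h8) (lt_irrefl _)

end Pool.Agent.helper11.WH
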